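import Pool.Agent.Y201.C3.Stm

/-! # A conic over `ℂ[x₀, …, x₃]` with a point where the matrix has rank one

Job `S_AN` of the project C3 (cubic fourfolds and parametrizations of degree three). -/

set_option autoImplicit false

namespace Pool.Agent.Q204.CF

open MvPolynomial

noncomputable section

/-! ## binary quadratic forms with linear coefficients -/

/-- If `f² l₀ + 2 f g l₁ + g² l₂ = 0` with `(f, g) ≠ 0` and `l₀, l₁, l₂` homogeneous of degree one, there
is a constant solution. -/
theorem const_sol {n : ℕ} (l0 l1 l2 : MvPolynomial (Fin n) ℂ) (h0 : l0.IsHomogeneous 1)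
    (h1 : l1.IsHomogeneous 1) (h2 : l2.IsHomogeneous 1) (f g : MvPolynomial (Fin n) ℂ)
    (hfg : f ≠ 0 ∨ g ≠ 0) (h : f ^ 2 * l0 + 2 * f * g * l1 + g ^ 2 * l2 = 0) :
    ∃ a b : ℂ, (a ≠ 0 ∨ b ≠ 0) ∧ C a ^ 2 * l0 + 2 * C a * C b * l1 + C b ^ 2 * l2 = 0 := by
  by_cases hl0 : l0 = 0
  · exact ⟨1, 0, Or.inl one_ne_zero, by simp [hl0]⟩
  by_cases hl2 : l2 = 0
  · exact ⟨0, 1, Or.inr one_ne_zero, by simp [hl2]⟩
  have hf : f ≠ 0 := by
    rintro rfl
    have hg : g ≠ 0 := by simpa using hfg
    have h' : g ^ 2 * l2 = 0 := by simpa using h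
    rcases mul_eq_zero.1 h' with h' | h'
    · exact hg (by simpa using h')
    · exact hl2 h'
  have hg : g ≠ 0 := by
    rintro rfl
    have h' : f ^ 2 * l0 = 0 := by simpa using h
    rcases mul_eq_zero.1 h' with h' | h'
    · exact hf (by simpa using h')
    · exact hl0 h'
  obtain ⟨f', g', c, hrel, hcf, hcg⟩ := UniqueFactorizationMonoid.exists_reduced_factors f hf g
  have hc : c ≠ 0 := by rintro rfl; apply hf; rw [← hcf, zero_mul]
  have hf' : f' ≠ 0 := by rintro rfl; apply hf; rw [← hcf, mul_zero]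
  have hg' : g' ≠ 0 := by rintro rfl; apply hg; rw [← hcg, mul_zero]
  have h' : f' ^ 2 * l0 + 2 * f' * g' * l1 + g' ^ 2 * l2 = 0 := by
    have : c ^ 2 * (f' ^ 2 * l0 + 2 * f' * g' * l1 + g' ^ 2 * l2) = 0 := by
      rw [← h, ← hcf, ← hcg]; ring
    rcases mul_eq_zero.1 this with h3 | h3
    · exact absurd (by simpa using h3) hc
    · exact h3
  -- `f' ∣ l2` and `g' ∣ l0`
  have hd1 : f' ∣ l2 := by
    have : f' ∣ g' ^ 2 * l2 := ⟨-(f' * l0 + 2 * g' * l1), by linear_combination h'⟩
    exact (hrel.pow_right (n := 2)).dvd_of_dvd_mul_left this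
  have hd2 : g' ∣ l0 := by
    have : g' ∣ f' ^ 2 * l0 := ⟨-(g' * l2 + 2 * f' * l1), by linear_combination h'⟩
    exact (hrel.symm.pow_right (n := 2)).dvd_of_dvd_mul_left this
  obtain ⟨k, hk⟩ := hd1
  obtain ⟨m, hm⟩ := hd2
  have hk0 : k ≠ 0 := by rintro rfl; apply hl2; rw [hk, mul_zero]
  have hm0 : m ≠ 0 := by rintro rfl; apply hl0; rw [hm, mul_zero]
  have hl1 : f' * m + 2 * l1 + g' * k = 0 := by
    have : (f' * g') * (f' * m + 2 * l1 + g' * k) = 0 := by
      rw [← h', hk, hm]; ring
    rcases mul_eq_zero.1 this with h3 | h3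
    · rcases mul_eq_zero.1 h3 with h3 | h3
      · exact absurd h3 hf'
      · exact absurd h3 hg'
    · exact h3
  have d1 : f'.totalDegree + k.totalDegree = 1 := by
    rw [← totalDegree_mul_of_isDomain hf' hk0, ← hk, h2.totalDegree hl2]
  have d2 : g'.totalDegree + m.totalDegree = 1 := by
    rw [← totalDegree_mul_of_isDomain hg' hm0, ← hm, h0.totalDegree hl0]
  have d3 : l1.totalDegree ≤ 1 := h1.totalDegree_le
  have cst : ∀ p : MvPolynomial (Fin n) ℂ, p ≠ 0 → p.totalDegree = 0 → ∃ a : ℂ, a ≠ 0 ∧ p = C a := by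
    intro p hp hd
    refine ⟨p.coeff 0, ?_, totalDegree_eq_zero_iff_eq_C.1 hd⟩
    intro h3
    apply hp
    rw [totalDegree_eq_zero_iff_eq_C.1 hd, h3, C_0]
  -- mixed case is impossible
  have mixed : ∀ p q r s : MvPolynomial (Fin n) ℂ, p ≠ 0 → q ≠ 0 → r ≠ 0 → s ≠ 0 →
      p * q + 2 * l1 + r * s = 0 → p.totalDegree = 0 → q.totalDegree = 0 →
      r.totalDegree = 1 → s.totalDegree = 1 → False := by
    intro p q r s hp hq hr hs he e1 e2 e3 e4
    have h5 : (r * s).totalDegree = 2 := by rw [totalDegree_mul_of_isDomain hr hs, e3, e4]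
    have h6 : r * s = -(p * q + 2 * l1) := by linear_combination he
    have h7 : (r * s).totalDegree ≤ 1 := by
      rw [h6, totalDegree_neg]
      refine (totalDegree_add _ _).trans (max_le ?_ ?_)
      · refine (totalDegree_mul _ _).trans (by omega)
      · have : (2 : MvPolynomial (Fin n) ℂ) = C 2 := (map_ofNat C 2).symm
        rw [this]
        refine (totalDegree_mul _ _).trans ?_
        rw [totalDegree_C]
        omega
    omega
  have hcase : (f'.totalDegree = 0 ∧ k.totalDegree = 1) ∨ (f'.totalDegree = 1 ∧ k.totalDegree = 0) := by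
    omega
  have hcase2 : (g'.totalDegree = 0 ∧ m.totalDegree = 1) ∨ (g'.totalDegree = 1 ∧ m.totalDegree = 0) := by
    omega
  rcases hcase with ⟨e1, e2⟩ | ⟨e1, e2⟩ <;> rcases hcase2 with ⟨e3, e4⟩ | ⟨e3, e4⟩
  · obtain ⟨a, ha, hfa⟩ := cst f' hf' e1
    obtain ⟨b, hb, hgb⟩ := cst g' hg' e3
    exact ⟨a, b, Or.inl ha, by rw [← hfa, ← hgb]; exact h'⟩
  · exact (mixed f' m g' k hf' hm0 hg' hk0 hl1 e1 e4 e3 e2).elim
  · exact (mixed g' k f' m hg' hk0 hf' hm0 (by linear_combination hl1) e3 e2 e1 e4).elim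
  · obtain ⟨a, ha, hka⟩ := cst k hk0 e2
    obtain ⟨b, hb, hmb⟩ := cst m hm0 e4
    refine ⟨a, b, Or.inl ha, ?_⟩
    rw [← hka, ← hmb, hk, hm]
    linear_combination (k * m) * hl1

/-! ## ternary forms on the kernel of a linear form -/

/-- the plane `e₀ w₀ + e₁ w₁ + e₂ w₂ = 0`, if some `e_i = 1` -/
theorem kernel_basis {R : Type} [CommRing R] [Algebra ℂ R] (e : Fin 3 → ℂ) (i0 : Fin 3) (he : e i0 = 1) :
    ∃ b1 b2 : Fin 3 → ℂ,
      (∀ a b : ℂ, (∀ i, a * b1 i + b * b2 i = 0) → a = 0 ∧ b = 0) ∧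
      (∑ i, e i * b1 i = 0) ∧ (∑ i, e i * b2 i = 0) ∧
      ∀ p : Fin 3 → R, ∑ i, algebraMap ℂ R (e i) * p i = 0 →
        ∃ f g : R, ∀ i, p i = f * algebraMap ℂ R (b1 i) + g * algebraMap ℂ R (b2 i) := by
  fin_cases i0
  · refine ⟨![-e 1, 1, 0], ![-e 2, 0, 1], ?_, ?_, ?_, ?_⟩
    · intro a b h
      have h1 := h 1
      have h2 := h 2
      simp at h1 h2
      exact ⟨h1, h2⟩
    · simp at he
      simp [Fin.sum_univ_three, he]
    · simp at he
      simp [Fin.sum_univ_three, he]
    · intro p hp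
      simp at he
      refine ⟨p 1, p 2, fun i => ?_⟩
      simp only [Fin.sum_univ_three, he, map_one, one_mul] at hp
      fin_cases i
      · simp
        linear_combination hp
      · simp
      · simp
  · refine ⟨![1, -e 0, 0], ![0, -e 2, 1], ?_, ?_, ?_, ?_⟩
    · intro a b h
      have h1 := h 0
      have h2 := h 2
      simp at h1 h2
      exact ⟨h1, h2⟩
    · simp at he
      simp [Fin.sum_univ_three, he]
    · simp at he
      simp [Fin.sum_univ_three, he]
    · intro p hp
      simp at he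
      refine ⟨p 0, p 2, fun i => ?_⟩
      simp only [Fin.sum_univ_three, he, map_one, one_mul] at hp
      fin_cases i
      · simp
      · simp
        linear_combination hp
      · simp
  · refine ⟨![1, 0, -e 0], ![0, 1, -e 1], ?_, ?_, ?_, ?_⟩
    · intro a b h
      have h1 := h 0
      have h2 := h 1
      simp at h1 h2
      exact ⟨h1, h2⟩
    · simp at he
      simp [Fin.sum_univ_three, he]
    · simp at he
      simp [Fin.sum_univ_three, he]
    · intro p hp
      simp at he
      refine ⟨p 0, p 1, fun i => ?_⟩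
      simp only [Fin.sum_univ_three, he, map_one, one_mul] at hp
      fin_cases i
      · simp
      · simp
      · simp
        linear_combination hp

/-- A symmetric `3 × 3` matrix `D` of linear forms, a nonzero isotropic vector `p` with `e · p = 0`: there
is a constant one. -/
theorem const_vec {n : ℕ} (D : Matrix (Fin 3) (Fin 3) (MvPolynomial (Fin n) ℂ)) (hD : D.IsSymm)
    (hh : ∀ i j, (D i j).IsHomogeneous 1) (e : Fin 3 → ℂ) (i0 : Fin 3) (he : e i0 = 1)
    (p : Fin 3 → MvPolynomial (Fin n) ℂ) (hp : p ≠ 0) (hep : ∑ i, C (e i) * p i = 0)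
    (h : ∑ i, ∑ j, p i * D i j * p j = 0) :
    ∃ u : Fin 3 → ℂ, u ≠ 0 ∧ ∑ i, e i * u i = 0 ∧ ∑ i, ∑ j, C (u i) * D i j * C (u j) = 0 := by
  obtain ⟨b1, b2, hli, h1, h2, hrep⟩ := kernel_basis (R := MvPolynomial (Fin n) ℂ) e i0 he
  obtain ⟨f, g, hfg⟩ := hrep p (by simpa [algebraMap_eq] using hep)
  simp only [algebraMap_eq] at hfg
  have key : ∀ F G : MvPolynomial (Fin n) ℂ,
      ∑ i, ∑ j, (F * C (b1 i) + G * C (b2 i)) * D i j * (F * C (b1 j) + G * C (b2 j)) =
        F ^ 2 * (∑ i, ∑ j, C (b1 i) * D i j * C (b1 j)) +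
        2 * F * G * (∑ i, ∑ j, C (b1 i) * D i j * C (b2 j)) +
        G ^ 2 * (∑ i, ∑ j, C (b2 i) * D i j * C (b2 j)) := by
    intro F G
    have s01 : D 1 0 = D 0 1 := hD.apply 0 1
    have s02 : D 2 0 = D 0 2 := hD.apply 0 2
    have s12 : D 2 1 = D 1 2 := hD.apply 1 2
    simp only [Fin.sum_univ_three, s01, s02, s12]
    ring
  have hom : ∀ c d : Fin 3 → ℂ, (∑ i, ∑ j, C (c i) * D i j * C (d j)).IsHomogeneous 1 := by
    intro c d
    refine IsHomogeneous.sum _ _ _ fun i _ => IsHomogeneous.sum _ _ _ fun j _ => ?_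
    have := ((isHomogeneous_C (Fin n) (c i)).mul (hh i j)).mul (isHomogeneous_C (Fin n) (d j))
    simpa using this
  have hne : f ≠ 0 ∨ g ≠ 0 := by
    by_contra hcon
    push Not at hcon
    apply hp
    funext i
    rw [hfg i, hcon.1, hcon.2]
    simp
  have h' : f ^ 2 * (∑ i, ∑ j, C (b1 i) * D i j * C (b1 j)) +
      2 * f * g * (∑ i, ∑ j, C (b1 i) * D i j * C (b2 j)) +
      g ^ 2 * (∑ i, ∑ j, C (b2 i) * D i j * C (b2 j)) = 0 := by
    rw [← key, ← h]
    simp only [hfg]
  obtain ⟨a, b, hab, hsol⟩ := const_sol _ _ _ (hom b1 b1) (hom b1 b2) (hom b2 b2) f g hne h'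
  refine ⟨fun i => a * b1 i + b * b2 i, ?_, ?_, ?_⟩
  · intro h0
    have := hli a b fun i => congrFun h0 i
    rcases hab with h3 | h3
    · exact h3 this.1
    · exact h3 this.2
  · have : ∑ i, e i * (a * b1 i + b * b2 i) = a * ∑ i, e i * b1 i + b * ∑ i, e i * b2 i := by
      simp only [Fin.sum_univ_three]; ring
    rw [this, h1, h2]; ring
  · rw [← hsol, ← key]
    simp only [map_add, map_mul]

/-! ## division by the common power of `s` -/

theorem divide {R : Type} [CommRing R] [IsDomain R] (M : Matrix (Fin 3) (Fin 3) (Polynomial R)) :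
    ∀ (n : ℕ) (v : Fin 3 → Polynomial R), (∀ i, (v i).natDegree ≤ n) → v ≠ 0 →
      ∑ i, ∑ j, v i * M i j * v j = 0 →
      ∃ w : Fin 3 → Polynomial R, (∃ i, (w i).coeff 0 ≠ 0) ∧ ∑ i, ∑ j, w i * M i j * w j = 0 := by
  intro n
  induction n with
  | zero =>
    intro v hd hv h
    refine ⟨v, ?_, h⟩
    by_contra hcon
    push Not at hcon
    apply hv
    funext i
    have := Polynomial.eq_C_of_natDegree_le_zero (hd i)
    rw [this, hcon i, map_zero]
    rfl
  | succ n ih =>
    intro v hd hv h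
    by_cases hc : ∃ i, (v i).coeff 0 ≠ 0
    · exact ⟨v, hc, h⟩
    push Not at hc
    have hX : ∀ i, v i = Polynomial.X * (v i).divX := by
      intro i
      have := Polynomial.X_mul_divX_add (v i)
      rw [hc i, map_zero, add_zero] at this
      exact this.symm
    apply ih (fun i => (v i).divX)
    · intro i
      rw [Polynomial.natDegree_divX_eq_natDegree_tsub_one]
      have := hd i
      omega
    · intro h0
      apply hv
      funext i
      rw [hX i]
      have := congrFun h0 i
      simp only [Pi.zero_apply] at this ⊢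
      rw [this, mul_zero]
    · have h2 : Polynomial.X ^ 2 * ∑ i, ∑ j, (v i).divX * M i j * (v j).divX = 0 := by
        rw [← h, Finset.mul_sum]
        refine Finset.sum_congr rfl fun i _ => ?_
        rw [Finset.mul_sum]
        refine Finset.sum_congr rfl fun j _ => ?_
        conv_rhs => rw [hX i, hX j]
        ring
      rcases mul_eq_zero.1 h2 with h3 | h3
      · exact absurd h3 (pow_ne_zero _ Polynomial.X_ne_zero)
      · exact h3

/-! ## the substitution `x = η + s z` -/

/-- `x ↦ η + s z` -/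
def sub (η : Fin 4 → ℂ) : MvPolynomial (Fin 4) ℂ →ₐ[ℂ] Polynomial (MvPolynomial (Fin 4) ℂ) :=
  aeval fun i => Polynomial.C (X i) * Polynomial.X + Polynomial.C (C (η i))

theorem sub_X (η : Fin 4 → ℂ) (i : Fin 4) :
    sub η (X i) = Polynomial.C (X i) * Polynomial.X + Polynomial.C (C (η i)) := by
  simp [sub]

theorem sub_C (η : Fin 4 → ℂ) (a : ℂ) : sub η (C a) = Polynomial.C (C a) := by
  unfold sub
  rw [aeval_C]
  rfl

theorem sub_injective (η : Fin 4 → ℂ) : Function.Injective (sub η) := by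
  let ψ : Polynomial (MvPolynomial (Fin 4) ℂ) →+* MvPolynomial (Fin 4) ℂ :=
    ((aeval fun i => X i - C (η i) : MvPolynomial (Fin 4) ℂ →ₐ[ℂ] MvPolynomial (Fin 4) ℂ) :
      MvPolynomial (Fin 4) ℂ →+* MvPolynomial (Fin 4) ℂ).comp (Polynomial.evalRingHom 1)
  have h : ψ.comp (sub η : MvPolynomial (Fin 4) ℂ →+* _) = RingHom.id _ := by
    apply MvPolynomial.ringHom_ext
    · intro a
      simp [ψ]
    · intro i
      simp [ψ, sub_X]
  intro p q hpq
  have h1 := congrArg ψ hpq
  have h2 : ∀ r, ψ (sub η r) = r := fun r => by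
    have := congrArg (fun f : MvPolynomial (Fin 4) ℂ →+* MvPolynomial (Fin 4) ℂ => f r) h
    simpa using this
  rw [h2, h2] at h1
  exact h1

theorem sub_coeff_zero (η : Fin 4 → ℂ) (p : MvPolynomial (Fin 4) ℂ) :
    (sub η p).coeff 0 = C (eval η p) := by
  induction p using MvPolynomial.induction_on with
  | C a => rw [sub_C, Polynomial.coeff_C_zero, eval_C]
  | add p q hp hq => rw [map_add, Polynomial.coeff_add, hp, hq, map_add, C_add]
  | mul_X p i hp => rw [map_mul, Polynomial.mul_coeff_zero, hp, sub_X, map_mul, C_mul]; simp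

/-- the linear part at `η` -/
def lin (η : Fin 4 → ℂ) (p : MvPolynomial (Fin 4) ℂ) : MvPolynomial (Fin 4) ℂ :=
  ∑ l, C (eval η (pderiv l p)) * X l

theorem lin_homogeneous (η : Fin 4 → ℂ) (p : MvPolynomial (Fin 4) ℂ) : (lin η p).IsHomogeneous 1 := by
  refine IsHomogeneous.sum _ _ _ fun l _ => ?_
  have := (isHomogeneous_C (Fin 4) (eval η (pderiv l p))).mul (isHomogeneous_X ℂ l)
  simpa using this

theorem sub_coeff_one (η : Fin 4 → ℂ) (p : MvPolynomial (Fin 4) ℂ) :
    (sub η p).coeff 1 = lin η p := by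
  induction p using MvPolynomial.induction_on with
  | C a =>
    rw [sub_C, Polynomial.coeff_C_of_ne_zero one_ne_zero]
    simp [lin]
  | add p q hp hq =>
    rw [map_add, Polynomial.coeff_add, hp, hq]
    simp only [lin, map_add, add_mul, Finset.sum_add_distrib]
  | mul_X p i hp =>
    have h1 : (sub η p * sub η (X i)).coeff 1 =
        (sub η p).coeff 0 * (sub η (X i)).coeff 1 + (sub η p).coeff 1 * (sub η (X i)).coeff 0 := by
      rw [Polynomial.coeff_mul]
      rw [Finset.Nat.antidiagonal_succ]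
      simp
    rw [map_mul, h1, hp, sub_coeff_zero, sub_coeff_zero, eval_X]
    have h2 : (sub η (X i)).coeff 1 = X i := by
      rw [sub_X]; simp [Polynomial.coeff_C]
    rw [h2]
    have h3 : lin η (p * X i) = ∑ l, (C (eval η (pderiv l p)) * C (η i) * X l +
        C (eval η p) * C (eval η (pderiv l (X i))) * X l) := by
      unfold lin
      refine Finset.sum_congr rfl fun l _ => ?_
      rw [Derivation.leibniz]
      simp only [smul_eq_mul, map_add, map_mul, eval_X]
      ring
    rw [h3, Finset.sum_add_distrib]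
    have h4 : ∑ l, C (eval η p) * C (eval η (pderiv l (X i))) * X l = C (eval η p) * X i := by
      rw [Finset.sum_eq_single i]
      · simp
      · intro l _ hl
        rw [pderiv_X_of_ne (Ne.symm hl)]
        simp
      · simp
    have h5 : lin η p * C (η i) = ∑ l, C (eval η (pderiv l p)) * C (η i) * X l := by
      unfold lin
      rw [Finset.sum_mul]
      refine Finset.sum_congr rfl fun l _ => ?_
      ring
    rw [h4, h5, add_comm]

/-! ## the job -/

theorem an : Pool.Agent.Y201.C3.S_AN := by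
  intro A hA η hne hrk hker V hV
  by_contra hV0
  -- a nonzero diagonal entry
  obtain ⟨i0, hi0⟩ : ∃ i, eval η (A i i) ≠ 0 := by
    obtain ⟨i, j, hij⟩ := hne
    refine ⟨i, fun h0 => ?_⟩
    have h1 := hrk i j j i
    rw [h0, zero_mul, hA.apply j i] at h1
    rcases mul_eq_zero.1 h1 with h2 | h2
    · exact hij (by rw [hA.apply j i]; exact h2)
    · exact hij (by rw [hA.apply j i]; exact h2)
  set c : ℂ := eval η (A i0 i0) with hc
  set e : Fin 3 → ℂ := fun j => eval η (A i0 j) / c with he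
  have he1 : e i0 = 1 := by simp only [he]; exact div_self hi0
  have hAe : ∀ i j, eval η (A i j) = c * e i * e j := by
    intro i j
    have h1 := hrk i0 i i0 j
    have h2 : eval η (A i i0) = eval η (A i0 i) := by rw [hA.apply i0 i]
    simp only [he]
    rw [h2] at h1
    field_simp
    linear_combination h1
  -- substitute and divide
  set M : Matrix (Fin 3) (Fin 3) (Polynomial (MvPolynomial (Fin 4) ℂ)) := fun i j => sub η (A i j) with hM
  set v : Fin 3 → Polynomial (MvPolynomial (Fin 4) ℂ) := fun i => sub η (V i) with hv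
  have hv0 : v ≠ 0 := by
    intro h0
    apply hV0
    funext i
    apply sub_injective η
    have := congrFun h0 i
    simpa [hv] using this
  have hvM : ∑ i, ∑ j, v i * M i j * v j = 0 := by
    have := congrArg (sub η) hV
    simpa [hv, hM, map_sum, map_mul] using this
  obtain ⟨w, ⟨i1, hi1⟩, hw⟩ := divide M (∑ i, (v i).natDegree) v
    (fun i => Finset.single_le_sum (f := fun i => (v i).natDegree) (fun _ _ => Nat.zero_le _)
      (Finset.mem_univ i)) hv0 hvM
  set p : Fin 3 → MvPolynomial (Fin 4) ℂ := fun i => (w i).coeff 0 with hp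
  set q : Fin 3 → MvPolynomial (Fin 4) ℂ := fun i => (w i).coeff 1 with hq
  have hp0 : p ≠ 0 := fun h0 => hi1 (by simpa [hp] using congrFun h0 i1)
  have hM0 : ∀ i j, (M i j).coeff 0 = C c * C (e i) * C (e j) := by
    intro i j
    simp only [hM]
    rw [sub_coeff_zero, hAe, C_mul, C_mul]
  have hM1 : ∀ i j, (M i j).coeff 1 = lin η (A i j) := fun i j => sub_coeff_one η _
  have hcC : (C c : MvPolynomial (Fin 4) ℂ) ≠ 0 := by simpa using hi0
  -- coefficient zero
  have hep : ∑ i, C (e i) * p i = 0 := by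
    have h0 := congrArg (fun f => Polynomial.coeff f 0) hw
    simp only [Polynomial.finsetSum_coeff, Polynomial.mul_coeff_zero, Polynomial.coeff_zero, hM0] at h0
    have h1 : C c * (∑ i, C (e i) * p i) ^ 2 = 0 := by
      rw [← h0]
      simp only [Fin.sum_univ_three, hp]
      ring
    rcases mul_eq_zero.1 h1 with h2 | h2
    · exact absurd h2 hcC
    · simpa using h2
  -- coefficient one
  have hco : ∀ f g h : Polynomial (MvPolynomial (Fin 4) ℂ), (f * g * h).coeff 1 =
      f.coeff 1 * g.coeff 0 * h.coeff 0 + f.coeff 0 * g.coeff 1 * h.coeff 0 +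
        f.coeff 0 * g.coeff 0 * h.coeff 1 := by
    intro f g h
    have h2 : ∀ a b : Polynomial (MvPolynomial (Fin 4) ℂ), (a * b).coeff 1 =
        a.coeff 0 * b.coeff 1 + a.coeff 1 * b.coeff 0 := by
      intro a b
      rw [Polynomial.coeff_mul, Finset.Nat.antidiagonal_succ]
      simp
    rw [h2, h2, Polynomial.mul_coeff_zero]
    ring
  have hpp : ∑ i, ∑ j, p i * lin η (A i j) * p j = 0 := by
    have h0 := congrArg (fun f => Polynomial.coeff f 1) hw
    simp only [Polynomial.finsetSum_coeff, hco, Polynomial.coeff_zero, hM0, hM1] at h0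
    have h1 : ∑ i, ∑ j, p i * lin η (A i j) * p j =
        -(2 * C c * (∑ i, C (e i) * q i) * (∑ i, C (e i) * p i)) := by
      rw [eq_neg_iff_add_eq_zero, ← h0]
      simp only [Fin.sum_univ_three, hp, hq]
      ring
    rw [h1, hep]
    ring
  obtain ⟨u, hu, heu, hsol⟩ := const_vec (fun i j => lin η (A i j))
    (Matrix.IsSymm.ext fun i j => by
      show lin η (A j i) = lin η (A i j)
      rw [hA.apply i j]) (fun i j => lin_homogeneous η _)
    e i0 he1 p hp0 hep hpp
  obtain ⟨l, hl⟩ := hker u hu (by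
    intro i
    have : ∑ j, eval η (A i j) * u j = c * e i * ∑ j, e j * u j := by
      rw [Finset.mul_sum]
      refine Finset.sum_congr rfl fun j _ => ?_
      rw [hAe]; ring
    rw [this, heu, mul_zero])
  apply hl
  -- the coefficient of `X l` of the constant solution
  have h1 : ∑ i, ∑ j, C (u i) * lin η (A i j) * C (u j) =
      lin η (∑ i, ∑ j, C (u i) * A i j * C (u j)) := by
    unfold lin
    simp only [Fin.sum_univ_three, map_add, Derivation.leibniz, smul_eq_mul, pderiv_C, mul_zero, add_zero,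
      zero_add, map_mul, eval_C]
    simp only [Fin.sum_univ_four]
    ring
  have hsol' : ∑ i, ∑ j, C (u i) * lin η (A i j) * C (u j) = 0 := hsol
  rw [h1] at hsol'
  have h2 := congrArg (coeff (Finsupp.single l 1)) hsol'
  simp only [lin, coeff_sum, coeff_C_mul, coeff_zero] at h2
  rw [Finset.sum_eq_single l] at h2
  · simpa using h2
  · intro k _ hk
    rw [coeff_X, if_neg (by
      intro h3
      exact hk (Finsupp.single_left_injective one_ne_zero h3)), mul_zero]
  · simp

end

end Pool.Agent.Q204.CF
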